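import Pool.Agent.Helper26.OS.Defs

/-!
# OS, blocks V1 and V2: values and Jacobian determinants of the letters
-/

set_option autoImplicit false

namespace Pool.Agent.Helper83.OS

open MvPolynomial Pool.Agent.Helper61.TH Pool.Agent.Helper87.FK Pool.Agent.Helper26.OB Pool.Agent.Helper26.OS

noncomputable section

/-- **V1** -/
theorem evS {m k : ℕ} {d : Fin k → ℕ} {R : Type} [CommRing R] (F : Fin m → MvPolynomial (Fin m) R)
    (C : Idx d → MvPolynomial (Fin m) R) (a : Fin k) (t : Fin m → R) (x : Fin 2 → R) :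
    evI (PS F C a) (Sum.elim t x) = Sum.elim (ev F t) (ev (form (at' C t) a) x) := by
  funext i
  rcases i with i | i
  · show eval (Sum.elim t x) (rename Sum.inl (F i)) = eval t (F i)
    rw [eval_rename]
    rfl
  · show eval (Sum.elim t x) (∑ j : Fin (d a + 1),
      rename Sum.inl (C ⟨a, (i, j)⟩) * X (Sum.inr 0) ^ (j : ℕ) * X (Sum.inr 1) ^ (d a - j)) = eval x (form (at' C t) a i)
    rw [form, map_sum, map_sum]
    refine Finset.sum_congr rfl fun j _ => ?_
    rw [map_mul, map_mul, map_pow, map_pow, eval_X, eval_X, eval_rename, map_mul, map_mul, map_pow, map_pow, eval_X, eval_X,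
      eval_C]
    rfl

private theorem pd_inr83 {m : ℕ} {R : Type} [CommRing R] (q : MvPolynomial (Fin m) R) (j : Fin 2) :
    pderiv (Sum.inr j : Fin m ⊕ Fin 2) (rename Sum.inl q) = 0 := by
  classical
  refine pderiv_eq_zero_of_notMem_vars fun h => ?_
  have h1 := vars_rename (Sum.inl : Fin m → Fin m ⊕ Fin 2) q h
  rw [Finset.mem_image] at h1
  obtain ⟨i, -, hi⟩ := h1
  exact Sum.inl_ne_inr hi

/-- **V2** -/
theorem detS {m k : ℕ} {d : Fin k → ℕ} {R : Type} [CommRing R] (F : Fin m → MvPolynomial (Fin m) R)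
    (C : Idx d → MvPolynomial (Fin m) R) (a : Fin k) (t : Fin m → R) (x : Fin 2 → R) :
    (jacI (PS F C a) (Sum.elim t x)).det = (jac F t).det * (jac (form (at' C t) a) x).det := by
  have h : jacI (PS F C a) (Sum.elim t x) = Matrix.fromBlocks (jac F t) 0
      (Matrix.of fun (i : Fin 2) (j : Fin m) => jacI (PS F C a) (Sum.elim t x) (Sum.inr i) (Sum.inl j))
      (jac (form (at' C t) a) x) := by
    ext i j
    rcases i with i | i <;> rcases j with j | j
    · show eval (Sum.elim t x) (pderiv (Sum.inl j) (rename Sum.inl (F i))) = eval t (pderiv j (F i))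
      rw [pderiv_rename Sum.inl_injective, eval_rename]
      rfl
    · show eval (Sum.elim t x) (pderiv (Sum.inr j) (rename Sum.inl (F i))) = 0
      rw [pd_inr83, map_zero]
    · rfl
    · show eval (Sum.elim t x) (pderiv (Sum.inr j) (∑ l : Fin (d a + 1),
        rename Sum.inl (C ⟨a, (i, l)⟩) * X (Sum.inr 0) ^ (l : ℕ) * X (Sum.inr 1) ^ (d a - l))) =
        eval x (pderiv j (form (at' C t) a i))
      rw [form, map_sum, map_sum, map_sum, map_sum]
      refine Finset.sum_congr rfl fun l _ => ?_
      have e1 : ∀ (u : Fin 2) (n : ℕ), eval (Sum.elim t x) (pderiv (Sum.inr j : Fin m ⊕ Fin 2)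
          ((X (Sum.inr u) : MvPolynomial (Fin m ⊕ Fin 2) R) ^ n)) = eval x (pderiv j ((X u : MvPolynomial (Fin 2) R) ^ n)) := by
        intro u n
        rw [pderiv_pow, pderiv_pow, pderiv_X, pderiv_X]
        simp only [map_mul, map_pow, map_natCast, eval_X, Sum.elim_inr]
        congr 1
        by_cases hu : u = j
        · subst hu
          simp
        · rw [Pi.single_eq_of_ne hu, Pi.single_eq_of_ne (fun h => hu (Sum.inr_injective h)), map_zero, map_zero]
      rw [pderiv_mul, pderiv_mul, pderiv_mul, pderiv_mul, pd_inr83, pderiv_C]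
      simp only [map_mul, map_add, map_pow, map_zero, zero_mul, zero_add, eval_X, eval_C, eval_rename, e1, Sum.elim_inr]
      rfl
  rw [h, Matrix.det_fromBlocks_zero₁₂]

end

end Pool.Agent.Helper83.OS
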