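import Pool.Agent.Helper26.OB.Fin3

/-!
# OS, block EX: the prime number, the embedding and the Frobenius
-/

set_option autoImplicit false

namespace Pool.Agent.Helper83.OS

open MvPolynomial Pool.Agent.Helper61.TH Pool.Agent.Helper87.FK Pool.Agent.Helper26.OB

noncomputable section

private theorem trans83 (A : Subfield ℂ) (hA : ∀ z : ℂ, IsAlgebraic A z → z ∈ A) (hAc : (A : Set ℂ).Countable)
    (Y : Finset ℂ) (hY : ∀ y ∈ Y, y ∉ A) : ∃ Z : Finset ℂ, (∀ z ∈ Z, z ∈ A) ∧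
    ∀ (p : ℕ) [Fact p.Prime] (τ₀ : ℂ →+* PadicAlgCl p) (n : ℕ), 1 ≤ n →
      (∀ z ∈ Z, ‖τ₀ z‖ ≤ 1 ∧ ‖(τ₀ z) ^ p ^ n - τ₀ z‖ < 1) → ∀ l : ℕ, l.Prime →
      ∃ τ : ℂ →+* PadicAlgCl p, (∀ z ∈ A, τ z = τ₀ z) ∧
        ∀ y ∈ Y, ‖τ y‖ ≤ 1 → ∀ m : ℕ, 1 ≤ m → ‖(τ y) ^ p ^ m - τ y‖ < 1 → l ∣ m :=
  Pool.Agent.Helper83.OBA.trans' (fun A hA Y hY => Pool.Agent.Helper38.OB.teq' A hA Y hY)
    (fun p _ N hN => unity p N hN) (fun p _ L₀ hL₀ τ₀ _ t ht θ => emb p L₀ hL₀ τ₀ t ht θ) A hA hAc Y hY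

/-- no residue of a transcendental number is infinite -/
private theorem norm83 {p : ℕ} [hp : Fact p.Prime] (τ : ℂ →+* PadicAlgCl p) {l : ℕ} (hl : l.Prime) {z : ℂ}
    (h : ‖τ z⁻¹‖ ≤ 1 → ∀ m : ℕ, 1 ≤ m → ‖(τ z⁻¹) ^ p ^ m - τ z⁻¹‖ < 1 → l ∣ m) : ‖τ z‖ ≤ 1 := by
  by_contra hcon
  push Not at hcon
  have h1 : ‖τ z⁻¹‖ < 1 := by
    rw [map_inv₀, norm_inv]
    exact inv_lt_one_of_one_lt₀ hcon
  have h2 := h h1.le 1 le_rfl (by
    have h3 : ‖(τ z⁻¹) ^ p ^ 1‖ < 1 := by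
      rw [norm_pow]
      exact pow_lt_one₀ (norm_nonneg _) h1 (by rw [pow_one]; exact hp.out.ne_zero)
    rw [sub_eq_add_neg]
    refine lt_of_le_of_lt (PadicAlgCl.isNonarchimedean p _ _) (max_lt h3 ?_)
    rw [norm_neg]
    exact h1)
  exact hl.one_lt.ne' (Nat.dvd_one.1 h2)

private theorem rd_congr83 {p : ℕ} [Fact p.Prime] {τ τ₀ : ℂ →+* PadicAlgCl p} {z : ℂ} (h : τ z = τ₀ z) :
    rd τ z = rd τ₀ z := by
  unfold rd
  simp only [h]

/-- **EX** -/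
theorem exU (K : Subfield ℂ) (T : Finset ℂ) (hT : ∀ z ∈ T, z ∈ K) {k : ℕ} (zz : Fin k → ℂ) (Cn : Fin k → Prop)
    (l : ℕ) (hl : l.Prime) (hkl : k ≤ l)
    (h : ∀ b, Cn b → Transcendental K (zz b) ∨ NumberField K ∧ l ∣ (minpoly K (zz b)).natDegree) (N₀ : ℕ) :
    ∃ A : Subfield ℂ, (∀ z : ℂ, IsAlgebraic A z → z ∈ A) ∧ (∀ z ∈ T, z ∈ A) ∧
      ∀ Z : Finset ℂ, (∀ z ∈ Z, z ∈ A) → ∃ (p : ℕ) (_ : Fact p.Prime) (τ : ℂ →+* PadicAlgCl p)
        (σ : kk p →+* kk p) (l' : ℕ), N₀ < p ∧ Un τ Z ∧ l'.Prime ∧ l ≤ l' ∧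
        (∀ z ∈ T, ‖τ z‖ ≤ 1 ∧ σ (rd τ z) = rd τ z) ∧
        ∀ b, Cn b → ‖τ (zz b)‖ ≤ 1 ∧ ∀ m : ℕ, 1 ≤ m → σ^[m] (rd τ (zz b)) = rd τ (zz b) → l' ∣ m := by
  classical
  obtain ⟨A, hA, hAc, hTA, hAt⟩ := exists_closed K (T : Set ℂ) T.countable_toSet hT
  refine ⟨A, hA, fun z hz => hTA hz, fun Z hZ => ?_⟩
  let Y : Finset ℂ := (Finset.univ.filter fun b => Cn b ∧ zz b ∉ A).image zz ∪
    (Finset.univ.filter fun b => Cn b ∧ zz b ∉ A).image fun b => (zz b)⁻¹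
  have hYm : ∀ b, Cn b → zz b ∉ A → zz b ∈ Y ∧ (zz b)⁻¹ ∈ Y := fun b hb hbA =>
    ⟨Finset.mem_union_left _ (Finset.mem_image.2 ⟨b, Finset.mem_filter.2 ⟨Finset.mem_univ _, hb, hbA⟩, rfl⟩),
      Finset.mem_union_right _ (Finset.mem_image.2 ⟨b, Finset.mem_filter.2 ⟨Finset.mem_univ _, hb, hbA⟩, rfl⟩)⟩
  have hY : ∀ y ∈ Y, y ∉ A := by
    intro y hy
    rcases Finset.mem_union.1 hy with hy | hy
    · obtain ⟨b, hb, rfl⟩ := Finset.mem_image.1 hy
      exact (Finset.mem_filter.1 hb).2.2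
    · obtain ⟨b, hb, rfl⟩ := Finset.mem_image.1 hy
      intro h1
      apply (Finset.mem_filter.1 hb).2.2
      have h2 := A.inv_mem h1
      rwa [inv_inv] at h2
  obtain ⟨ZT, hZT, htr⟩ := trans83 A hA hAc Y hY
  by_cases hall : ∀ b, Cn b → Transcendental K (zz b)
  · -- transcendental coordinates
    let Z' : Finset ℂ := Z ∪ T ∪ ZT
    have hZZ' : ∀ z ∈ Z, z ∈ Z' := fun z hz => Finset.mem_union_left _ (Finset.mem_union_left _ hz)
    have hTZ' : ∀ z ∈ T, z ∈ Z' := fun z hz => Finset.mem_union_left _ (Finset.mem_union_right _ hz)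
    have hZTZ' : ∀ z ∈ ZT, z ∈ Z' := fun z hz => Finset.mem_union_right _ hz
    obtain ⟨p, hp, τ₀, hpN, hUn⟩ := Pool.Agent.Helper53.OB.cassels Z' N₀
    obtain ⟨n, hn, hper⟩ := per_common (frobenius (kk p) p) (Z'.image (rd τ₀)) (by
      intro x hx
      obtain ⟨z, hz, rfl⟩ := Finset.mem_image.1 hx
      obtain ⟨n, hn, h1⟩ := res_per p (τ₀ z) (hUn z hz).1
      refine ⟨n, hn, ?_⟩
      rw [iterate_frobenius]
      exact (rd_pow_iff τ₀ z (hUn z hz).1 n).2 h1)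
    have hper' : ∀ z ∈ Z', rd τ₀ z ^ p ^ n = rd τ₀ z := by
      intro z hz
      have h1 := hper _ (Finset.mem_image_of_mem (rd τ₀) hz)
      rwa [iterate_frobenius] at h1
    obtain ⟨l', hlN, hl'⟩ := Nat.exists_infinite_primes (l + n + 1)
    obtain ⟨τ, hτ, hτY⟩ := htr p τ₀ n hn (fun z hz =>
      ⟨(hUn z (hZTZ' z hz)).1, (rd_pow_iff τ₀ z (hUn z (hZTZ' z hz)).1 n).1 (hper' z (hZTZ' z hz))⟩) l' hl'
    refine ⟨p, hp, τ, iterateFrobenius (kk p) p n, l', hpN, ?_, hl', by omega, ?_, ?_⟩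
    · intro z hz
      rw [hτ z (hZ z hz)]
      exact hUn z (hZZ' z hz)
    · intro z hz
      have h1 : τ z = τ₀ z := hτ z (hTA hz)
      refine ⟨?_, ?_⟩
      · rw [h1]
        exact (hUn z (hTZ' z hz)).1
      · rw [rd_congr83 h1]
        exact (iterateFrobenius_def (R := kk p) (p := p) (n := n) _).trans (hper' z (hTZ' z hz))
    · intro b hb
      have hbA : zz b ∉ A := hAt _ (hall b hb)
      have h1 : ‖τ (zz b)‖ ≤ 1 := norm83 τ hl' (hτY _ (hYm b hb hbA).2)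
      refine ⟨h1, fun m hm h2 => ?_⟩
      have h6 : rd τ (zz b) ^ p ^ (n * m) = rd τ (zz b) :=
        (iter_iterateFrobenius (κ := kk p) p n m _).symm.trans h2
      have h7 := (rd_pow_iff τ (zz b) h1 (n * m)).1 h6
      have h8 := hτY _ (hYm b hb hbA).1 h1 (n * m) (Nat.mul_pos hn hm) h7
      rcases (Nat.Prime.dvd_mul hl').1 h8 with h9 | h9
      · have := Nat.le_of_dvd hn h9
        omega
      · exact h9
  · -- number fields
    push Not at hall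
    obtain ⟨b₀, hb₀, hb₀'⟩ := hall
    obtain ⟨hK, -⟩ := (h b₀ hb₀).resolve_left hb₀'
    have hKalg : Algebra.IsAlgebraic ℚ K := inferInstance
    have hAalg : ∀ z ∈ A, IsAlgebraic ℚ z := by
      intro z hz
      have h1 : IsAlgebraic K z := by
        by_contra h1
        exact hAt z h1 hz
      exact (isIntegral_trans (R := ℚ) (A := K) z (isAlgebraic_iff_isIntegral.1 h1)).isAlgebraic
    have hinA : ∀ z, IsAlgebraic ℚ z → z ∈ A := fun z hz => hA z (hz.tower_top A)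
    let x : Fin k → ℂ := fun b => if Cn b then zz b else zz b₀
    obtain ⟨σ₀, hσK, hσx⟩ := Pool.Agent.Helper43.OB.sylow K l hl hkl x (by
      have hkey : ∀ b, Cn b → IsAlgebraic ℚ (zz b) → l ∣ (minpoly K (zz b)).natDegree := fun b hb hb2 =>
        ((h b hb).resolve_left fun h3 => h3 (hb2.tower_top K)).2
      intro b hb
      by_cases hcn : Cn b
      · simp only [x, if_pos hcn] at hb ⊢
        exact hkey b hcn hb
      · simp only [x, if_neg hcn] at hb ⊢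
        exact hkey b₀ hb₀ hb)
    let Z' : Finset ℂ := Z ∪ T ∪ ZT ∪ (Finset.univ.filter fun b => Cn b ∧ zz b ∈ A).image zz
    have hZZ' : ∀ z ∈ Z, z ∈ Z' := fun z hz =>
      Finset.mem_union_left _ (Finset.mem_union_left _ (Finset.mem_union_left _ hz))
    have hTZ' : ∀ z ∈ T, z ∈ Z' := fun z hz =>
      Finset.mem_union_left _ (Finset.mem_union_left _ (Finset.mem_union_right _ hz))
    have hZTZ' : ∀ z ∈ ZT, z ∈ Z' := fun z hz => Finset.mem_union_left _ (Finset.mem_union_right _ hz)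
    have hzZ' : ∀ b, Cn b → zz b ∈ A → zz b ∈ Z' := fun b hb hbA => Finset.mem_union_right _
      (Finset.mem_image.2 ⟨b, Finset.mem_filter.2 ⟨Finset.mem_univ _, hb, hbA⟩, rfl⟩)
    have hZ'alg : ∀ z ∈ Z', IsAlgebraic ℚ z := by
      intro z hz
      refine hAalg z ?_
      rcases Finset.mem_union.1 hz with hz | hz
      · rcases Finset.mem_union.1 hz with hz | hz
        · rcases Finset.mem_union.1 hz with hz | hz
          · exact hZ z hz
          · exact hTA hz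
        · exact hZT z hz
      · obtain ⟨b, hb, rfl⟩ := Finset.mem_image.1 hz
        exact (Finset.mem_filter.1 hb).2.2
    obtain ⟨p, hp, τ₀, hpN, hUn, hfr⟩ := Pool.Agent.Helper53.OB.frob_equiv σ₀ Z' hZ'alg N₀
    obtain ⟨n, hn, hper⟩ := per_fin σ₀ ZT fun z hz => hAalg z (hZT z hz)
    obtain ⟨τ, hτ, hτY⟩ := htr p (τ₀ : ℂ →+* PadicAlgCl p) n hn (fun z hz =>
      ⟨(hUn z (hZTZ' z hz)).1, (hfr z (hZTZ' z hz) n).2 (hper z hz)⟩) l hl
    have hτ' : ∀ z ∈ A, τ z = τ₀ z := fun z hz => hτ z hz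
    refine ⟨p, hp, τ, frobenius (kk p) p, l, hpN, ?_, hl, le_rfl, ?_, ?_⟩
    · intro z hz
      rw [hτ z (hZ z hz)]
      exact hUn z (hZZ' z hz)
    · intro z hz
      have h1 := hτ' z (hTA hz)
      have h2 : ‖τ z‖ ≤ 1 := by
        rw [h1]
        exact (hUn z (hTZ' z hz)).1
      refine ⟨h2, ?_⟩
      have h3 := (hfr z (hTZ' z hz) 1).2 (hσK z (hT z hz))
      rw [← h1] at h3
      have h4 := (rd_pow_iff τ z h2 1).2 h3
      rw [pow_one] at h4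
      exact h4
    · intro b hb
      by_cases hbA : zz b ∈ A
      · have h1 := hτ' _ hbA
        have h2 : ‖τ (zz b)‖ ≤ 1 := by
          rw [h1]
          exact (hUn _ (hzZ' b hb hbA)).1
        refine ⟨h2, fun m hm h3 => ?_⟩
        rw [iterate_frobenius] at h3
        have h4 := (rd_pow_iff τ (zz b) h2 m).1 h3
        rw [h1] at h4
        have h5 := (hfr _ (hzZ' b hb hbA) m).1 h4
        have h6 : Function.minimalPeriod σ₀ (zz b) ∣ m := Function.IsPeriodicPt.minimalPeriod_dvd h5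
        have h7 := hσx b
        simp only [x, if_pos hb] at h7
        exact (h7 (hAalg _ hbA)).trans h6
      · have h1 : ‖τ (zz b)‖ ≤ 1 := norm83 τ hl (hτY _ (hYm b hb hbA).2)
        refine ⟨h1, fun m hm h3 => ?_⟩
        rw [iterate_frobenius] at h3
        exact hτY _ (hYm b hb hbA).1 h1 m hm ((rd_pow_iff τ (zz b) h1 m).1 h3)

end

end Pool.Agent.Helper83.OS
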