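import Pool.Agent.Helper26.OB.Fin3

/-!
# OS, block EN: the embedding for a given automorphism
-/

set_option autoImplicit false

namespace Pool.Agent.Helper83.OS

open MvPolynomial Pool.Agent.Helper61.TH Pool.Agent.Helper87.FK Pool.Agent.Helper26.OB

noncomputable section

/-- no residue of a transcendental number is infinite -/
private theorem normN83 {p : ℕ} [hp : Fact p.Prime] (τ : ℂ →+* PadicAlgCl p) {l : ℕ} (hl : l.Prime) {z : ℂ}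
    (h : ‖τ z⁻¹‖ ≤ 1 → ∀ m : ℕ, 1 ≤ m → ‖(τ z⁻¹) ^ p ^ m - τ z⁻¹‖ < 1 → l ∣ m) : ‖τ z‖ ≤ 1 := by
  by_contra hcon
  push Not at hcon
  have h1 : ‖τ z⁻¹‖ < 1 := by
    rw [map_inv₀, norm_inv]
    exact inv_lt_one_of_one_lt₀ hcon
  have h2 := h h1.le 1 le_rfl (by
    have h3 : ‖(τ z⁻¹) ^ p ^ 1‖ < 1 := by
      rw [norm_pow]
      exact pow_lt_one₀ (norm_nonneg _) h1 (by rw [pow_one]; exact hp.out.ne_zero)
    rw [sub_eq_add_neg]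
    refine lt_of_le_of_lt (PadicAlgCl.isNonarchimedean p _ _) (max_lt h3 ?_)
    rw [norm_neg]
    exact h1)
  exact hl.one_lt.ne' (Nat.dvd_one.1 h2)

/-- **EN** -/
theorem exN (σ : ℂ ≃+* ℂ) (Z : Finset ℂ) (hZ : ∀ z ∈ Z, IsAlgebraic ℚ z) {k : ℕ} (zz : Fin k → ℂ) (N₀ : ℕ) :
    ∃ (p : ℕ) (_ : Fact p.Prime) (τ : ℂ →+* PadicAlgCl p) (σ' : kk p →+* kk p) (l' : ℕ), N₀ < p ∧ N₀ < l' ∧ l'.Prime ∧
      Un τ Z ∧ (∀ z ∈ Z, ∀ m : ℕ, σ'^[m] (rd τ z) = rd τ z ↔ σ^[m] z = z) ∧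
      ∀ b, ¬ IsAlgebraic ℚ (zz b) → ‖τ (zz b)‖ ≤ 1 ∧
        ∀ m : ℕ, 1 ≤ m → σ'^[m] (rd τ (zz b)) = rd τ (zz b) → l' ∣ m := by
  classical
  let Y : Finset ℂ := (Finset.univ.filter fun b => ¬ IsAlgebraic ℚ (zz b)).image zz ∪
    (Finset.univ.filter fun b => ¬ IsAlgebraic ℚ (zz b)).image fun b => (zz b)⁻¹
  have hYm : ∀ b, ¬ IsAlgebraic ℚ (zz b) → zz b ∈ Y ∧ (zz b)⁻¹ ∈ Y := fun b hb =>
    ⟨Finset.mem_union_left _ (Finset.mem_image.2 ⟨b, Finset.mem_filter.2 ⟨Finset.mem_univ _, hb⟩, rfl⟩),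
      Finset.mem_union_right _ (Finset.mem_image.2 ⟨b, Finset.mem_filter.2 ⟨Finset.mem_univ _, hb⟩, rfl⟩)⟩
  have hY : ∀ y ∈ Y, Transcendental ℚ y := by
    intro y hy
    rcases Finset.mem_union.1 hy with hy | hy
    · obtain ⟨b, hb, rfl⟩ := Finset.mem_image.1 hy
      exact (Finset.mem_filter.1 hb).2
    · obtain ⟨b, hb, rfl⟩ := Finset.mem_image.1 hy
      intro h1
      apply (Finset.mem_filter.1 hb).2
      have h2 := h1.inv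
      rwa [inv_inv] at h2
  obtain ⟨ZT, hZT, htr⟩ := Pool.Agent.Helper70.OB.trans (fun Y hY => Pool.Agent.Helper95.OB.teq Y hY)
    (fun p _ N hN => unity p N hN) (fun p _ L₀ hL₀ τ₀ _ t ht θ => emb p L₀ hL₀ τ₀ t ht θ) Y hY
  obtain ⟨n, hn, hper⟩ := per_fin σ ZT hZT
  have hZ' : ∀ z ∈ Z ∪ ZT, IsAlgebraic ℚ z := by
    intro z hz
    rcases Finset.mem_union.1 hz with hz | hz
    · exact hZ z hz
    · exact hZT z hz
  obtain ⟨p, hp, τ₀, hpN, hUn, hfr⟩ := Pool.Agent.Helper53.OB.frob_equiv σ (Z ∪ ZT) hZ' N₀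
  obtain ⟨l', hlN, hl'⟩ := Nat.exists_infinite_primes (N₀ + 1)
  obtain ⟨τ, hτ, hτY⟩ := htr p (τ₀ : ℂ →+* PadicAlgCl p) n hn (fun z hz =>
    ⟨(hUn z (Finset.mem_union_right _ hz)).1, (hfr z (Finset.mem_union_right _ hz) n).2 (hper z hz)⟩) l' hl'
  have hτZ : ∀ z ∈ Z, τ z = τ₀ z := fun z hz => hτ z (hZ z hz)
  have hUnτ : Un τ Z := by
    intro z hz
    rw [hτZ z hz]
    exact hUn z (Finset.mem_union_left _ hz)
  refine ⟨p, hp, τ, frobenius (kk p) p, l', hpN, by omega, hl', hUnτ, ?_, ?_⟩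
  · intro z hz m
    rw [iterate_frobenius, rd_pow_iff τ z (hUnτ z hz).1 m, hτZ z hz]
    exact hfr z (Finset.mem_union_left _ hz) m
  · intro b hb
    have h1 : ‖τ (zz b)‖ ≤ 1 := normN83 τ hl' (hτY _ (hYm b hb).2)
    refine ⟨h1, fun m hm h3 => ?_⟩
    rw [iterate_frobenius] at h3
    exact hτY _ (hYm b hb).1 h1 m hm ((rd_pow_iff τ (zz b) h1 m).1 h3)

end

end Pool.Agent.Helper83.OS
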